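import Pool.Agent.MGP.Stmts

/-!
# MGP row CLS (helper67): `f` depends only on the class
-/

set_option autoImplicit false

namespace Pool.Agent.MGP.H67

open Pool.Agent.MGP

theorem arith {j u b : ℕ} (hb : b % 2 = 1) (hbu : b ≤ u) (hu : 0 < u) (h1 : j * (2 * u) ≤ b ^ 2)
    (h2 : (b + 2) ^ 2 < (j + 1) * (2 * (u + 2))) :
    2 * j * (u + 2) < (b + 1) ^ 2 ∧ (b + 1) ^ 2 < 2 * (j + 1) * u := by
  have h3 : 2 * j ≤ b := by
    have h4 : 2 * j * u ≤ b * u := by
      calc 2 * j * u = j * (2 * u) := by ring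
        _ ≤ b ^ 2 := h1
        _ = b * b := by ring
        _ ≤ b * u := Nat.mul_le_mul_left b hbu
    exact Nat.le_of_mul_le_mul_right h4 hu
  have h5 : 2 * j + 1 ≤ b := by omega
  obtain ⟨P, hP⟩ : ∃ P, P = j * u := ⟨_, rfl⟩
  obtain ⟨S, hS⟩ : ∃ S, S = b ^ 2 := ⟨_, rfl⟩
  have e1 : j * (2 * u) = 2 * P := by rw [hP]; ring
  have e2 : (b + 2) ^ 2 = S + 4 * b + 4 := by rw [hS]; ring
  have e3 : (j + 1) * (2 * (u + 2)) = 2 * P + 4 * j + 2 * u + 4 := by rw [hP]; ring
  have e4 : 2 * j * (u + 2) = 2 * P + 4 * j := by rw [hP]; ring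
  have e5 : (b + 1) ^ 2 = S + 2 * b + 1 := by rw [hS]; ring
  have e6 : 2 * (j + 1) * u = 2 * P + 2 * u := by rw [hP]; ring
  rw [e1, ← hS] at h1
  rw [e2, e3] at h2
  rw [e4, e5, e6]
  constructor <;> omega

theorem cls (hl : LnkStmt) (hm : MonStmt) : ClsStmt := by
  intro G _ f N κ hf hF hN h2 v w
  induction w using Nat.strong_induction_on with
  | _ w ih =>
  intro hv hw hNv hvw hc
  rcases Nat.lt_or_ge v w with h | h
  · have hv' : v % 2 = 1 := Nat.odd_iff.1 hv
    have hw' : w % 2 = 1 := Nat.odd_iff.1 hw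
    have hN' : N % 2 = 0 := Nat.even_iff.1 hN
    obtain ⟨u, rfl⟩ : ∃ u, w = u + 2 := ⟨w - 2, by omega⟩
    have hvu : v ≤ u := by omega
    have hu : Odd u := Nat.odd_iff.2 (by omega)
    obtain ⟨b, rfl⟩ : ∃ b, u = N + b := ⟨u - N, by omega⟩
    have m1 := hm N v (N + b) (by omega) hNv.le hvu
    have m2 := hm N (N + b) (N + b + 2) (by omega) (by omega) (by omega)
    have hc1 : cl N v = cl N (N + b) := by omega
    have hc2 : cl N (N + b + 2) = cl N (N + b) := by omega
    rw [ih (N + b) (by omega) hv hu hNv hvu hc1]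
    obtain ⟨j, hj⟩ : ∃ j, j = cl N (N + b) := ⟨_, rfl⟩
    have k1 : j * (2 * (N + b)) ≤ b ^ 2 := by
      have h3 := Nat.div_mul_le_self ((N + b - N) ^ 2) (2 * (N + b))
      rw [hj]
      unfold cl
      have h4 : N + b - N = b := by omega
      rw [h4] at h3 ⊢
      exact h3
    have k2 : (b + 2) ^ 2 < (j + 1) * (2 * (N + b + 2)) := by
      have h3 : cl N (N + b + 2) < j + 1 := by omega
      unfold cl at h3
      have h4 : N + b + 2 - N = b + 2 := by omega
      rw [h4, Nat.div_lt_iff_lt_mul (by omega)] at h3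
      exact h3
    obtain ⟨a1, a2⟩ := arith (by omega) (by omega : b ≤ N + b) (by omega) k1 k2
    have h5 := hl G f N κ hf hF hN h2 (b + 1) j (Nat.even_iff.2 (by omega)) (by
      have h6 : N + (b + 1) + 1 = N + b + 2 := by omega
      rw [h6]
      exact a1) (by
      have h6 : N + (b + 1) - 1 = N + b := by omega
      rw [h6]
      exact a2)
    exact h5
  · have h3 : v = w := le_antisymm hvw h
    rw [h3]

end Pool.Agent.MGP.H67
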